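import Pool.Agent.Helper29.TD.Main
import Pool.Agent.Helper20.EX2.GridDef

/-!
# The cells of a short code form a square grid

`R : St Γ V` with `Cond d c0 W R`: the cells correspond to the pairs of values of their column code and their row code.
-/

set_option autoImplicit false

namespace Pool.Agent.Helper20.MW

open FirstOrder FirstOrder.Language Pool.Agent.Helper20.Spectra Pool.Agent.Helper29.Prefix
  Pool.Agent.Helper20.OP Pool.Agent.Helper29.TD
open Pool.Agent.Helper20.EX2 (gh gu)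

variable {Γ V : Type}

/-- `r` is the row code of `c` -/
def RowC (R : St Γ V) (c r : V) : Prop := R.par r c ∧ R.node r ∧ R.row r

/-- `s` is the column code of `c` -/
def ColC (R : St Γ V) (c s : V) : Prop := R.par s c ∧ R.node s ∧ ¬ R.row s

/-- the value of `y` is the next value after the value of `x` -/
def NextV (d : ℕ) (R : St Γ V) (x y : V) : Prop :=
  ltv R d x y ∧ ∀ w, Lev R d w → ltv R d x w → ¬ ltv R d w y

/-- one step to the right -/
def CH (d : ℕ) (R : St Γ V) (c c' : V) : Prop :=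
  ∃ r r' s s', RowC R c r ∧ RowC R c' r' ∧ ColC R c s ∧ ColC R c' s' ∧ eqv R d r r' ∧ NextV d R s s'

/-- one step up -/
def CU (d : ℕ) (R : St Γ V) (c c' : V) : Prop :=
  ∃ r r' s s', RowC R c r ∧ RowC R c' r' ∧ ColC R c s ∧ ColC R c' s' ∧ eqv R d s s' ∧ NextV d R r r'

lemma def_rowC : Def2 Γ (fun _ R c r => RowC R c r) :=
  Def.and (Def.par _ _) (Def.and (Def.node _) (Def.row _))

lemma def_colC : Def2 Γ (fun _ R c s => ColC R c s) :=
  Def.and (Def.par _ _) (Def.and (Def.node _) (Def.not (Def.row _)))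

lemma def_nextV (d : ℕ) : Def2 Γ (fun _ R x y => NextV d R x y) := by
  refine Def.and (def_ltv d) (Def.all (Def.imp ((def_Lev d).app _) (Def.imp ((def_ltv d).app _ _)
    (Def.not ((def_ltv d).app _ _)))))

lemma def_CH (d : ℕ) : Def2 Γ (fun _ R x y => CH d R x y) := by
  unfold CH
  refine Def.ex (Def.ex (Def.ex (Def.ex ?_)))
  exact (def_rowC.app _ _).and ((def_rowC.app _ _).and ((def_colC.app _ _).and
    ((def_colC.app _ _).and (((def_eqv d).app _ _).and ((def_nextV d).app _ _)))))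

lemma def_CU (d : ℕ) : Def2 Γ (fun _ R x y => CU d R x y) := by
  unfold CU
  refine Def.ex (Def.ex (Def.ex (Def.ex ?_)))
  exact (def_rowC.app _ _).and ((def_rowC.app _ _).and ((def_colC.app _ _).and
    ((def_colC.app _ _).and (((def_eqv d).app _ _).and ((def_nextV d).app _ _)))))

variable {d c0 : ℕ} {W : Wang Γ} {R : St Γ V}

theorem Cond.grid [Finite V] (h : Cond d c0 W R) (hc : 2 ≤ c0) :
    ∃ N m, c0 ≤ (Nat.clog 2)^[d] N ∧ (Nat.clog 2)^[d] N = Nat.card {a // R.apex a} ∧ m < N ∧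
      Nat.card V = Fs d N + m ∧ ∃ e : {c // R.cell c} ≃ Fin N × Fin N,
        (∀ x y, CH d R x.1 y.1 ↔ gh N (e x) (e y)) ∧ ∀ x y, CU d R x.1 y.1 ↔ gu N (e x) (e y) := by
  obtain ⟨f, K, hV⟩ := h.1.vals (by omega)
  have hs := h.sqCode hc hV
  have hit := K_iter h.1 hc hV
  have h0 := hV.zero
  have hd := dum_card h hc hV
  have hcard := hs.card
  rw [rep_card h hV] at hcard
  refine ⟨K d, Nat.card {x // R.dum x}, ?_, hit.trans h0, hd, ?_, ?_⟩
  · obtain ⟨g, hg, hga⟩ := h.1.big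
    rw [hit, h0]
    have : Function.Injective (fun i : Fin c0 => (⟨g i, hga i⟩ : {a // R.apex a})) := by
      intro i j hij
      exact hg (congrArg Subtype.val hij)
    simpa using Nat.card_le_card_of_injective _ this
  · have e1 : Nat.card {x // R.apex x ∨ R.dum x} = Nat.card {x // R.apex x} +
        Nat.card {x // R.dum x} := by
      classical
      have e : {x // R.apex x ∨ R.dum x} ≃ {x // R.apex x} ⊕ {x // R.dum x} := by
        refine Equiv.ofBijective (fun x => if hx : R.apex x.1 then Sum.inl ⟨x.1, hx⟩ else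
          Sum.inr ⟨x.1, x.2.resolve_left hx⟩) ⟨?_, ?_⟩
        · rintro ⟨x, hx⟩ ⟨y, hy⟩ hxy
          by_cases h1 : R.apex x <;> by_cases h2 : R.apex y <;> simp [h1, h2] at hxy <;>
            exact Subtype.ext hxy
        · rintro (⟨x, hx⟩ | ⟨x, hx⟩)
          · exact ⟨⟨x, Or.inl hx⟩, by simp [hx]⟩
          · have h1 : ¬ R.apex x := fun h1 => (h.1.dis x).2.2.1 ⟨h1, hx⟩
            exact ⟨⟨x, Or.inr hx⟩, by simp [h1]⟩
      rw [Nat.card_congr e, Nat.card_sum]
    rw [hcard, e1]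
    unfold Fs
    rw [hit, h0]
    ring
  · -- the codes of a cell
    have hr : ∀ c : {c // R.cell c}, ∃ r, RowC R c.1 r ∧ ∀ r', RowC R c.1 r' → r' = r := by
      intro c
      obtain ⟨r, h1, h2, h3, h4⟩ := h.2.rowc c.1 c.2
      exact ⟨r, ⟨h1, h2, h3⟩, fun r' h' => h4 r' h'.1 h'.2.1 h'.2.2⟩
    have hs' : ∀ c : {c // R.cell c}, ∃ s, ColC R c.1 s ∧ ∀ s', ColC R c.1 s' → s' = s := by
      intro c
      obtain ⟨s, h1, h2, h3, h4⟩ := h.2.colc c.1 c.2
      exact ⟨s, ⟨h1, h2, h3⟩, fun s' h' => h4 s' h'.1 h'.2.1 h'.2.2⟩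
    choose rc hrc hru using hr
    choose sc hsc hsu using hs'
    have lr : ∀ c, Lev R d (rc c) := fun c => code_lev h.1 (hrc c).2.1 c.2 (hrc c).1
    have ls : ∀ c, Lev R d (sc c) := fun c => code_lev h.1 (hsc c).2.1 c.2 (hsc c).1
    have br : ∀ c, f d (rc c) < K d := fun c => (hV.rng d le_rfl _).1 ⟨rc c, lr c, rfl⟩
    have bs : ∀ c, f d (sc c) < K d := fun c => (hV.rng d le_rfl _).1 ⟨sc c, ls c, rfl⟩
    have hnext : ∀ x y, Lev R d x → Lev R d y → (NextV d R x y ↔ f d x + 1 = f d y) := by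
      intro x y hx hy
      have hy' : f d y < K d := (hV.rng d le_rfl _).1 ⟨y, hy, rfl⟩
      unfold NextV
      rw [hV.lt d le_rfl x y hx hy]
      constructor
      · rintro ⟨h1, h2⟩
        by_contra h3
        obtain ⟨w, hw, hw'⟩ := (hV.rng d le_rfl (f d x + 1)).2 (by omega)
        have h4 := h2 w hw
        rw [hV.lt d le_rfl x w hx hw, hV.lt d le_rfl w y hw hy, hw'] at h4
        exact h4 (by omega) (by omega)
      · intro h1
        refine ⟨by omega, fun w hw => ?_⟩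
        rw [hV.lt d le_rfl x w hx hw, hV.lt d le_rfl w y hw hy]
        omega
    let F : {c // R.cell c} → Fin (K d) × Fin (K d) := fun c => (⟨f d (sc c), bs c⟩,
      ⟨f d (rc c), br c⟩)
    have hF : Function.Bijective F := by
      constructor
      · intro c c' hcc
        have h1 : f d (sc c) = f d (sc c') := congrArg (fun p => (p.1 : ℕ)) hcc
        have h2 : f d (rc c) = f d (rc c') := congrArg (fun p => (p.2 : ℕ)) hcc
        obtain ⟨b, _, hb⟩ := h.2.pair (rc c) (sc c) (lr c) (ls c)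
        have a1 := hb c.1 ⟨c.2, ⟨rc c, (hrc c).1, (hrc c).2.1, (hrc c).2.2,
          (hV.eq d le_rfl _ _ (lr c) (lr c)).2 rfl⟩, sc c, (hsc c).1, (hsc c).2.1, (hsc c).2.2,
          (hV.eq d le_rfl _ _ (ls c) (ls c)).2 rfl⟩
        have a2 := hb c'.1 ⟨c'.2, ⟨rc c', (hrc c').1, (hrc c').2.1, (hrc c').2.2,
          (hV.eq d le_rfl _ _ (lr c') (lr c)).2 h2.symm⟩, sc c', (hsc c').1, (hsc c').2.1,
          (hsc c').2.2, (hV.eq d le_rfl _ _ (ls c') (ls c)).2 h1.symm⟩
        exact Subtype.ext (a1.trans a2.symm)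
      · rintro ⟨i, j⟩
        obtain ⟨x, hx, hxj⟩ := (hV.rng d le_rfl j).2 j.is_lt
        obtain ⟨y, hy, hyi⟩ := (hV.rng d le_rfl i).2 i.is_lt
        obtain ⟨c, hcell, -⟩ := h.2.pair x y hx hy
        obtain ⟨hcc, ⟨r, hrp, hrn, hrr, hre⟩, ⟨s, hsp, hsn, hsr, hse⟩⟩ := hcell
        refine ⟨⟨c, hcc⟩, ?_⟩
        have er : r = rc ⟨c, hcc⟩ := hru ⟨c, hcc⟩ r ⟨hrp, hrn, hrr⟩
        have es : s = sc ⟨c, hcc⟩ := hsu ⟨c, hcc⟩ s ⟨hsp, hsn, hsr⟩
        have lr' : Lev R d r := er ▸ lr ⟨c, hcc⟩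
        have ls' : Lev R d s := es ▸ ls ⟨c, hcc⟩
        rw [hV.eq d le_rfl _ _ lr' hx] at hre
        rw [hV.eq d le_rfl _ _ ls' hy] at hse
        refine Prod.ext (Fin.ext ?_) (Fin.ext ?_)
        · show f d (sc ⟨c, hcc⟩) = i
          rw [← es, hse, hyi]
        · show f d (rc ⟨c, hcc⟩) = j
          rw [← er, hre, hxj]
    refine ⟨Equiv.ofBijective F hF, fun c c' => ?_, fun c c' => ?_⟩
    · show CH d R c.1 c'.1 ↔ f d (sc c) + 1 = f d (sc c') ∧ f d (rc c) = f d (rc c')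
      constructor
      · rintro ⟨r, r', s, s', h1, h2, h3, h4, h5, h6⟩
        have e1 := hru c r h1
        have e2 := hru c' r' h2
        have e3 := hsu c s h3
        have e4 := hsu c' s' h4
        subst e1 e2 e3 e4
        rw [hV.eq d le_rfl _ _ (lr _) (lr _)] at h5
        rw [hnext _ _ (ls _) (ls _)] at h6
        exact ⟨h6, h5⟩
      · rintro ⟨h1, h2⟩
        exact ⟨rc c, rc c', sc c, sc c', hrc c, hrc c', hsc c, hsc c',
          (hV.eq d le_rfl _ _ (lr _) (lr _)).2 h2, (hnext _ _ (ls _) (ls _)).2 h1⟩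
    · show CU d R c.1 c'.1 ↔ f d (sc c) = f d (sc c') ∧ f d (rc c) + 1 = f d (rc c')
      constructor
      · rintro ⟨r, r', s, s', h1, h2, h3, h4, h5, h6⟩
        have e1 := hru c r h1
        have e2 := hru c' r' h2
        have e3 := hsu c s h3
        have e4 := hsu c' s' h4
        subst e1 e2 e3 e4
        rw [hV.eq d le_rfl _ _ (ls _) (ls _)] at h5
        rw [hnext _ _ (lr _) (lr _)] at h6
        exact ⟨h5, h6⟩
      · rintro ⟨h1, h2⟩
        exact ⟨rc c, rc c', sc c, sc c', hrc c, hrc c', hsc c, hsc c',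
          (hV.eq d le_rfl _ _ (ls _) (ls _)).2 h1, (hnext _ _ (lr _) (lr _)).2 h2⟩

end Pool.Agent.Helper20.MW
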