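import Pool.Agent.Helper29.MW.Defs
import Pool.Agent.Helper20.EX2.GridDef

/-!
# Definability by the formulas `MFm`

`MF S ar r m P`: the condition `P V I v X` on an interpretation `I` of the symbols `S` in `V`, `r` elements and
`m` subsets is definable by one formula `MFm S ar r m`.
-/

set_option autoImplicit false

namespace Pool.Agent.Helper20.MW

open FirstOrder FirstOrder.Language Pool.Agent.Helper20.Spectra Pool.Agent.Helper20.OP
open Pool.Agent.Helper20.EX2 (Sat)
open Pool.Agent.Helper14.SS (SFm)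
open Pool.Agent.Helper29.MW

variable {S : Type} {ar : S → ℕ}

/-- definable conditions -/
def MF (S : Type) (ar : S → ℕ) (r m : ℕ)
    (P : ∀ V : Type, Interp S ar V → (Fin r → V) → (Fin m → Set V) → Prop) : Prop :=
  ∃ φ : MFm S ar r m, ∀ (V : Type) (I : Interp S ar V) (v : Fin r → V) (X : Fin m → Set V),
    φ.Holds I v X ↔ P V I v X

/-- renaming of variables -/
lemma relabelM {k m : ℕ} (φ : MFm S ar k m) :
    ∀ {k' m' : ℕ} (g : Fin k → Fin k') (h : Fin m → Fin m'), ∃ ψ : MFm S ar k' m',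
      ∀ (V : Type) (I : Interp S ar V) (v : Fin k' → V) (X : Fin m' → Set V),
        ψ.Holds I v X ↔ φ.Holds I (v ∘ g) (X ∘ h) := by
  induction φ with
  | eq i j => exact fun g h => ⟨.eq (g i) (g j), fun _ _ _ _ => Iff.rfl⟩
  | rel s f => exact fun g h => ⟨.rel s (fun i => g (f i)), fun _ _ _ _ => Iff.rfl⟩
  | mem i j => exact fun g h => ⟨.mem (g i) (h j), fun _ _ _ _ => Iff.rfl⟩
  | not φ ih =>
    intro k' m' g h
    obtain ⟨ψ, hψ⟩ := ih g h
    exact ⟨.not ψ, fun V I v X => not_congr (hψ V I v X)⟩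
  | and φ φ' ih ih' =>
    intro k' m' g h
    obtain ⟨ψ, hψ⟩ := ih g h
    obtain ⟨ψ', hψ'⟩ := ih' g h
    exact ⟨.and ψ ψ', fun V I v X => and_congr (hψ V I v X) (hψ' V I v X)⟩
  | ex φ ih =>
    intro k' m' g h
    obtain ⟨ψ, hψ⟩ := ih (Fin.cons 0 (fun i => (g i).succ)) h
    refine ⟨.ex ψ, fun V I v X => exists_congr fun x => ?_⟩
    rw [hψ]
    have e : ((Fin.cons x v : Fin (_ + 1) → V) ∘ (Fin.cons 0 (fun i => (g i).succ) :
        Fin (_ + 1) → Fin (k' + 1))) = Fin.cons x (v ∘ g) := by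
      funext i
      refine Fin.cases ?_ (fun i => ?_) i <;> rfl
    rw [e]
  | exSet φ ih =>
    intro k' m' g h
    obtain ⟨ψ, hψ⟩ := ih g (Fin.cons 0 (fun i => (h i).succ))
    refine ⟨.exSet ψ, fun V I v X => exists_congr fun Y => ?_⟩
    rw [hψ]
    have e : ((Fin.cons Y X : Fin (_ + 1) → Set V) ∘ (Fin.cons 0 (fun i => (h i).succ) :
        Fin (_ + 1) → Fin (m' + 1))) = Fin.cons Y (X ∘ h) := by
      funext i
      refine Fin.cases ?_ (fun i => ?_) i <;> rfl
    rw [e]

namespace MF

variable {r m : ℕ}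

lemma congr {P Q : ∀ V : Type, Interp S ar V → (Fin r → V) → (Fin m → Set V) → Prop}
    (h : MF S ar r m P) (hPQ : ∀ V I v X, Q V I v X ↔ P V I v X) : MF S ar r m Q := by
  obtain ⟨φ, hφ⟩ := h
  exact ⟨φ, fun V I v X => (hφ V I v X).trans (hPQ V I v X).symm⟩

lemma not {P : ∀ V : Type, Interp S ar V → (Fin r → V) → (Fin m → Set V) → Prop}
    (h : MF S ar r m P) : MF S ar r m (fun V I v X => ¬ P V I v X) := by
  obtain ⟨φ, hφ⟩ := h
  exact ⟨.not φ, fun V I v X => not_congr (hφ V I v X)⟩

lemma and {P Q : ∀ V : Type, Interp S ar V → (Fin r → V) → (Fin m → Set V) → Prop}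
    (h : MF S ar r m P) (h' : MF S ar r m Q) :
    MF S ar r m (fun V I v X => P V I v X ∧ Q V I v X) := by
  obtain ⟨φ, hφ⟩ := h
  obtain ⟨ψ, hψ⟩ := h'
  exact ⟨.and φ ψ, fun V I v X => and_congr (hφ V I v X) (hψ V I v X)⟩

lemma or {P Q : ∀ V : Type, Interp S ar V → (Fin r → V) → (Fin m → Set V) → Prop}
    (h : MF S ar r m P) (h' : MF S ar r m Q) :
    MF S ar r m (fun V I v X => P V I v X ∨ Q V I v X) :=
  (h.not.and h'.not).not.congr (fun V I v X => by tauto)

lemma imp {P Q : ∀ V : Type, Interp S ar V → (Fin r → V) → (Fin m → Set V) → Prop}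
    (h : MF S ar r m P) (h' : MF S ar r m Q) :
    MF S ar r m (fun V I v X => P V I v X → Q V I v X) :=
  (h.not.or h').congr (fun V I v X => by tauto)

lemma iff {P Q : ∀ V : Type, Interp S ar V → (Fin r → V) → (Fin m → Set V) → Prop}
    (h : MF S ar r m P) (h' : MF S ar r m Q) :
    MF S ar r m (fun V I v X => (P V I v X ↔ Q V I v X)) :=
  ((h.imp h').and (h'.imp h)).congr (fun V I v X => by tauto)

lemma mem (i : Fin r) (j : Fin m) : MF S ar r m (fun _ _ v X => v i ∈ X j) :=
  ⟨.mem i j, fun _ _ _ _ => Iff.rfl⟩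

lemma eq (i j : Fin r) : MF S ar r m (fun _ _ v _ => v i = v j) :=
  ⟨.eq i j, fun _ _ _ _ => Iff.rfl⟩

lemma rel (s : S) (f : Fin (ar s) → Fin r) :
    MF S ar r m (fun _ I v _ => I s (fun i => v (f i))) :=
  ⟨.rel s f, fun _ _ _ _ => Iff.rfl⟩

lemma const (p : Prop) : MF S ar r m (fun _ _ _ _ => p) := by
  by_cases hp : p
  · refine ⟨.not (.and (.ex (.eq 0 0)) (.not (.ex (.eq 0 0)))), fun V I v X => ?_⟩
    exact ⟨fun _ => hp, fun _ h => h.2 h.1⟩
  · refine ⟨.and (.ex (.eq 0 0)) (.not (.ex (.eq 0 0))), fun V I v X => ?_⟩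
    exact ⟨fun h => (h.2 h.1).elim, fun h => (hp h).elim⟩

lemma sub {P : ∀ V : Type, Interp S ar V → (Fin r → V) → (Fin m → Set V) → Prop}
    (h : MF S ar r m P) {r' m' : ℕ} (g : Fin r → Fin r') (f : Fin m → Fin m') :
    MF S ar r' m' (fun V I v X => P V I (v ∘ g) (X ∘ f)) := by
  obtain ⟨φ, hφ⟩ := h
  obtain ⟨ψ, hψ⟩ := relabelM φ g f
  exact ⟨ψ, fun V I v X => (hψ V I v X).trans (hφ V I _ _)⟩

lemma ex {P : ∀ V : Type, Interp S ar V → (Fin r → V) → (Fin m → Set V) → V → Prop}
    (h : MF S ar (r + 1) m (fun V I w X => P V I (Fin.tail w) X (w 0))) :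
    MF S ar r m (fun V I v X => ∃ x, P V I v X x) := by
  obtain ⟨φ, hφ⟩ := h
  exact ⟨.ex φ, fun V I v X => exists_congr (fun x => hφ V I (Fin.cons x v) X)⟩

lemma all {P : ∀ V : Type, Interp S ar V → (Fin r → V) → (Fin m → Set V) → V → Prop}
    (h : MF S ar (r + 1) m (fun V I w X => P V I (Fin.tail w) X (w 0))) :
    MF S ar r m (fun V I v X => ∀ x, P V I v X x) :=
  (ex (P := fun V I v X x => ¬ P V I v X x) h.not).not.congr
    (fun V I v X => by simp only [not_exists, not_not])

lemma exS {P : ∀ V : Type, Interp S ar V → (Fin r → V) → (Fin m → Set V) → Set V → Prop}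
    (h : MF S ar r (m + 1) (fun V I v W => P V I v (Fin.tail W) (W 0))) :
    MF S ar r m (fun V I v X => ∃ Y, P V I v X Y) := by
  obtain ⟨φ, hφ⟩ := h
  exact ⟨.exSet φ, fun V I v X => exists_congr (fun Y => hφ V I v (Fin.cons Y X))⟩

lemma allFinset {γ : Type} (s : Finset γ)
    {P : γ → ∀ V : Type, Interp S ar V → (Fin r → V) → (Fin m → Set V) → Prop}
    (h : ∀ c ∈ s, MF S ar r m (P c)) : MF S ar r m (fun V I v X => ∀ c ∈ s, P c V I v X) := by
  classical
  induction s using Finset.induction_on with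
  | empty => exact (MF.const True).congr (fun V I v X => by simp)
  | insert c s hc ih =>
    refine ((h c (Finset.mem_insert_self c s)).and
      (ih (fun d hd => h d (Finset.mem_insert_of_mem hd)))).congr (fun V I v X => ?_)
    simp only [Finset.forall_mem_insert]

lemma allFin {γ : Type} [Finite γ]
    {P : γ → ∀ V : Type, Interp S ar V → (Fin r → V) → (Fin m → Set V) → Prop}
    (h : ∀ c, MF S ar r m (P c)) : MF S ar r m (fun V I v X => ∀ c, P c V I v X) := by
  have := Fintype.ofFinite γ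
  exact (allFinset Finset.univ (fun c _ => h c)).congr (fun V I v X => by simp)

lemma allLast {P : ∀ V : Type, Interp S ar V → (Fin r → V) → (Fin m → Set V) → V → Prop}
    (h : MF S ar (r + 1) m (fun V I w X => P V I (fun i => w i.castSucc) X (w (Fin.last r)))) :
    MF S ar r m (fun V I v X => ∀ x, P V I v X x) := by
  refine MF.all ?_
  refine (h.sub (m' := m) (Fin.snoc Fin.succ 0 : Fin (r + 1) → Fin (r + 1)) id).congr
    (fun V I w X => ?_)
  have e1 : (fun i : Fin r => (w ∘ (Fin.snoc Fin.succ 0 : Fin (r + 1) → Fin (r + 1))) i.castSucc) =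
      Fin.tail w := by
    funext i
    show w ((Fin.snoc Fin.succ 0 : Fin (r + 1) → Fin (r + 1)) i.castSucc) = w i.succ
    rw [Fin.snoc_castSucc]
  have e2 : (w ∘ (Fin.snoc Fin.succ 0 : Fin (r + 1) → Fin (r + 1))) (Fin.last r) = w 0 := by
    show w ((Fin.snoc Fin.succ 0 : Fin (r + 1) → Fin (r + 1)) (Fin.last r)) = w 0
    rw [Fin.snoc_last]
  rw [e1, e2]
  exact Iff.rfl

end MF

/-- definable relations between elements -/
lemma MF.app {r : ℕ} {P : ∀ V : Type, Interp S ar V → (Fin r → V) → Prop}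
    (h : MF S ar r 0 (fun V I v _ => P V I v)) {r' m' : ℕ} (g : Fin r → Fin r') :
    MF S ar r' m' (fun V I v _ => P V I (v ∘ g)) :=
  h.sub g (Fin.elim0 : Fin 0 → Fin m')

private lemma term_varW {ι : Type} {ar : ι → ℕ} {α : Type} (t : (RelLang ι ar).Term α) :
    ∃ i : α, t = Term.var i := by
  cases t with
  | var x => exact ⟨x, rfl⟩
  | func f _ => exact Empty.elim f

/-- first-order formulas -/
theorem MF.fo {n m : ℕ} (φ : (RelLang S ar).BoundedFormula Empty n) :
    MF S ar n m (fun V I w _ => @BoundedFormula.Realize _ V (mkS I) _ _ φ default w) := by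
  induction φ with
  | @falsum n => exact (MF.const False).congr fun V I v X => Iff.rfl
  | @equal n t₁ t₂ =>
    obtain ⟨z₁, rfl⟩ := term_varW t₁
    obtain ⟨z₂, rfl⟩ := term_varW t₂
    rcases z₁ with i | i
    · exact i.elim
    · rcases z₂ with j | j
      · exact j.elim
      · exact (MF.eq i j).congr fun V I w X => Iff.rfl
  | @rel n l r ts =>
    obtain ⟨s, hs⟩ := r
    subst hs
    choose z hz using fun i => term_varW (ts i)
    have hz' : ∀ i, ∃ j : Fin n, z i = Sum.inr j := by
      intro i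
      rcases z i with j | j
      · exact j.elim
      · exact ⟨j, rfl⟩
    choose f hf using hz'
    refine (MF.rel s f).congr fun V I w X => ?_
    let _ := mkS I
    have hh : (fun i : Fin (ar s) => (ts i).realize (Sum.elim (default : Empty → V) w)) =
        fun i => w (f i) := by
      funext i
      rw [hz i, hf i]
      rfl
    show I s (fun i : Fin (ar s) => (ts i).realize (Sum.elim (default : Empty → V) w)) ↔ _
    rw [hh]
  | @imp n φ ψ ih₁ ih₂ => exact (ih₁.imp ih₂).congr fun V I w X => Iff.rfl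
  | @all n φ ih =>
    refine MF.allLast (m := m) (r := n) (P := fun V I w _ x =>
      @BoundedFormula.Realize _ V (mkS I) _ _ φ default (Fin.snoc w x)) ?_
    refine ih.congr fun V I w X => ?_
    have h2 : (Fin.snoc (fun i : Fin n => w i.castSucc) (w (Fin.last n)) : Fin (n + 1) → V) = w :=
      Fin.snoc_init_self w
    rw [h2]

/-- the position of a variable -/
private def idxW (k n : ℕ) : Fin k ⊕ Fin n → Fin (k + n) := Sum.elim (Fin.castAdd n) (Fin.natAdd k)

private theorem relatW_fo {ι : Type} {ar' : ι → ℕ}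
    {Z : ∀ V : Type, Interp S ar V → V → Prop} (hZ : MF S ar 1 0 (fun V I v _ => Z V I (v 0)))
    {ρ : ∀ s : ι, ∀ V : Type, Interp S ar V → (Fin (ar' s) → V) → Prop}
    (hρ : ∀ s, MF S ar (ar' s) 0 (fun V I v _ => ρ s V I v)) {k n m : ℕ}
    (φ : (RelLang ι ar').BoundedFormula (Fin k) n) :
    MF S ar (k + n) m (fun V R w _ => ∀ h : ∀ i, Z V R (w i),
      @BoundedFormula.Realize _ {x // Z V R x} (mkS (fun s u => ρ s V R (fun i => (u i).1))) _ _ φ
        (fun i => ⟨w (Fin.castAdd n i), h _⟩) (fun i => ⟨w (Fin.natAdd k i), h _⟩)) := by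
  have hdom : ∀ j : ℕ, MF S ar j m (fun V R v _ => ∀ i : Fin j, Z V R (v i)) := fun j =>
    MF.allFin (fun i => (MF.app (P := fun V R v => Z V R (v 0)) hZ (m' := m) (fun _ => i)))
  induction φ with
  | @falsum n => exact ((hdom (k + n)).imp (MF.const False)).congr fun V R v X => Iff.rfl
  | @equal n t₁ t₂ =>
    obtain ⟨z₁, rfl⟩ := term_varW t₁
    obtain ⟨z₂, rfl⟩ := term_varW t₂
    refine ((hdom (k + n)).imp (MF.eq (idxW k n z₁) (idxW k n z₂))).congr fun V R w X => ?_
    refine forall_congr' fun h => ?_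
    rcases z₁ with i | i <;> rcases z₂ with j | j <;> exact Subtype.ext_iff
  | @rel n l r ts =>
    obtain ⟨s, hs⟩ := r
    subst hs
    choose z hz using fun i => term_varW (ts i)
    refine ((hdom (k + n)).imp ((MF.app (P := fun V R v => ρ s V R v) (hρ s) (m' := m)
      (fun i => idxW k n (z i))))).congr fun V R w X => ?_
    refine forall_congr' fun h => ?_
    let _ := mkS (fun s (u : Fin (ar' s) → {x // Z V R x}) => ρ s V R (fun i => (u i).1))
    have hh : (fun i : Fin (ar' s) => (((ts i).realize (Sum.elim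
        (fun i => (⟨w (Fin.castAdd n i), h _⟩ : {x // Z V R x}))
        (fun i => (⟨w (Fin.natAdd k i), h _⟩ : {x // Z V R x}))) : {x // Z V R x})).1) =
        w ∘ (fun i => idxW k n (z i)) := by
      funext i
      rw [hz i]
      show (Sum.elim (fun i => (⟨w (Fin.castAdd n i), h _⟩ : {x // Z V R x}))
        (fun i => (⟨w (Fin.natAdd k i), h _⟩ : {x // Z V R x})) (z i)).1 = w (idxW k n (z i))
      rcases z i with j | j <;> rfl
    show ρ s V R (fun i : Fin (ar' s) => (((ts i).realize (Sum.elim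
        (fun i => (⟨w (Fin.castAdd n i), h _⟩ : {x // Z V R x}))
        (fun i => (⟨w (Fin.natAdd k i), h _⟩ : {x // Z V R x}))) : {x // Z V R x})).1) ↔ _
    rw [hh]
  | @imp n φ ψ ih₁ ih₂ =>
    refine ((hdom (k + n)).imp (ih₁.imp ih₂)).congr fun V R w X => ?_
    constructor
    · intro H h H1 h'
      exact H h (H1 h)
    · intro H h H1
      exact H h (fun _ => H1) h
  | @all n φ ih =>
    have h1 : MF S ar (k + n) m (fun V R w _ => ∀ x : V,
        ∀ h : ∀ i, Z V R ((Fin.snoc w x : Fin (k + n + 1) → V) i),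
        @BoundedFormula.Realize _ {x // Z V R x}
          (mkS (fun s u => ρ s V R (fun i => (u i).1))) _ _ φ
          (fun i => ⟨(Fin.snoc w x : Fin (k + n + 1) → V) (Fin.castAdd (n + 1) i), h _⟩)
          (fun i => ⟨(Fin.snoc w x : Fin (k + n + 1) → V) (Fin.natAdd k i), h _⟩)) := by
      refine MF.allLast (m := m) (r := k + n) ?_
      refine ih.congr fun V R w X => ?_
      have h2 : (Fin.snoc (fun i : Fin (k + n) => w i.castSucc) (w (Fin.last (k + n))) :
          Fin (k + n + 1) → V) = w := Fin.snoc_init_self w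
      rw [h2]
      exact Iff.rfl
    refine h1.congr fun V R w X => ?_
    have key1 : ∀ (h : ∀ i, Z V R (w i)) (x : V)
        (h' : ∀ i, Z V R ((Fin.snoc w x : Fin (k + n + 1) → V) i)),
        (fun i : Fin k => (⟨(Fin.snoc w x : Fin (k + n + 1) → V) (Fin.castAdd (n + 1) i), h' _⟩ :
          {x // Z V R x})) = fun i => ⟨w (Fin.castAdd n i), h _⟩ := by
      intro h x h'
      funext i
      apply Subtype.ext
      show (Fin.snoc w x : Fin (k + n + 1) → V) ((Fin.castAdd n i).castSucc) = _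
      rw [Fin.snoc_castSucc]
    have key2 : ∀ (h : ∀ i, Z V R (w i)) (x : V) (hx : Z V R x)
        (h' : ∀ i, Z V R ((Fin.snoc w x : Fin (k + n + 1) → V) i)),
        (Fin.snoc (fun i : Fin n => (⟨w (Fin.natAdd k i), h _⟩ : {x // Z V R x})) ⟨x, hx⟩ :
          Fin (n + 1) → {x // Z V R x}) =
          fun i => ⟨(Fin.snoc w x : Fin (k + n + 1) → V) (Fin.natAdd k i), h' _⟩ := by
      intro h x hx h'
      funext i
      apply Subtype.ext
      refine Fin.lastCases ?_ (fun j => ?_) i
      · show _ = (Fin.snoc w x : Fin (k + n + 1) → V) (Fin.last (k + n))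
        rw [Fin.snoc_last, Fin.snoc_last]
      · show _ = (Fin.snoc w x : Fin (k + n + 1) → V) ((Fin.natAdd k j).castSucc)
        rw [Fin.snoc_castSucc, Fin.snoc_castSucc]
    constructor
    · intro H x h'
      have h : ∀ i, Z V R (w i) := fun i => by
        have := h' i.castSucc
        rwa [Fin.snoc_castSucc] at this
      have hx : Z V R x := by
        have := h' (Fin.last (k + n))
        rwa [Fin.snoc_last] at this
      have := H h ⟨x, hx⟩
      rw [key2 h x hx h', ← key1 h x h'] at this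
      exact this
    · intro H h x
      obtain ⟨x, hx⟩ := x
      have h' : ∀ i, Z V R ((Fin.snoc w x : Fin (k + n + 1) → V) i) := by
        intro i
        refine Fin.lastCases ?_ (fun j => ?_) i
        · rw [Fin.snoc_last]; exact hx
        · rw [Fin.snoc_castSucc]; exact h j
      rw [key2 h x hx h', ← key1 h x h']
      exact H x h'

/-- relativisation to the definable set `Z`, with definable relations `ρ` -/
theorem MF.relat {ι : Type} {ar' : ι → ℕ}
    {Z : ∀ V : Type, Interp S ar V → V → Prop} (hZ : MF S ar 1 0 (fun V I v _ => Z V I (v 0)))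
    {ρ : ∀ s : ι, ∀ V : Type, Interp S ar V → (Fin (ar' s) → V) → Prop}
    (hρ : ∀ s, MF S ar (ar' s) 0 (fun V I v _ => ρ s V I v)) {k m : ℕ}
    (φ : SFm (RelLang ι ar') k m) :
    MF S ar k m (fun V R v X => ∀ h : ∀ i, Z V R (v i),
      @Sat _ {x // Z V R x} (mkS (fun s u => ρ s V R (fun i => (u i).1))) k m φ
        (fun i => ⟨v i, h i⟩) (fun j => {x | x.1 ∈ X j})) := by
  have hdom : ∀ j m : ℕ, MF S ar j m (fun V R v _ => ∀ i : Fin j, Z V R (v i)) := fun j m =>
    MF.allFin (fun i => (MF.app (P := fun V R v => Z V R (v 0)) hZ (m' := m) (fun _ => i)))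
  induction φ with
  | @fo k m φ =>
    refine (relatW_fo (m := m) hZ hρ φ).congr fun V R v X => ?_
    refine forall_congr' fun h => ?_
    let _ := mkS (fun s (u : Fin (ar' s) → {x // Z V R x}) => ρ s V R (fun i => (u i).1))
    show BoundedFormula.Realize φ (fun i => (⟨v i, h i⟩ : {x // Z V R x})) default ↔ _
    have e : (default : Fin 0 → {x // Z V R x}) = fun i => ⟨v (Fin.natAdd k i), h _⟩ :=
      Subsingleton.elim _ _
    rw [e]
    exact Iff.rfl
  | @mem k m i j =>
    exact ((hdom k m).imp (MF.mem i j)).congr fun V R v X => Iff.rfl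
  | @not k m φ ih =>
    refine ((hdom k m).imp ih.not).congr fun V R v X => ?_
    constructor
    · intro H h H1
      exact H h (H1 h)
    · intro H h H1
      exact H h (fun _ => H1)
  | @and k m φ ψ ih ih' =>
    refine (ih.and ih').congr fun V R v X => ?_
    constructor
    · intro H
      exact ⟨fun h => (H h).1, fun h => (H h).2⟩
    · intro H h
      exact ⟨H.1 h, H.2 h⟩
  | @ex k m φ ih =>
    have h1 : MF S ar k m (fun V R v X => ∃ x : V, Z V R x ∧
        ∀ h : ∀ i, Z V R ((Fin.cons x v : Fin (k + 1) → V) i),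
        @Sat _ {x // Z V R x} (mkS (fun s u => ρ s V R (fun i => (u i).1))) (k + 1) m φ
        (fun i => ⟨(Fin.cons x v : Fin (k + 1) → V) i, h i⟩) (fun j => {x | x.1 ∈ X j})) := by
      refine MF.ex ?_
      refine ((MF.app (P := fun V R v => Z V R (v 0)) hZ (m' := m) (fun _ => 0)).and ih).congr
        fun V R w X => ?_
      have e : (Fin.cons (w 0) (Fin.tail w) : Fin (k + 1) → V) = w := Fin.cons_self_tail w
      rw [e]
      exact Iff.rfl
    refine ((hdom k m).imp h1).congr fun V R v X => ?_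
    refine forall_congr' fun h => ?_
    have key : ∀ (x : V) (hx : Z V R x)
        (h' : ∀ i, Z V R ((Fin.cons x v : Fin (k + 1) → V) i)),
        (Fin.cons (⟨x, hx⟩ : {x // Z V R x}) (fun i => (⟨v i, h i⟩ : {x // Z V R x})) :
          Fin (k + 1) → {x // Z V R x}) =
          fun i => ⟨(Fin.cons x v : Fin (k + 1) → V) i, h' i⟩ := by
      intro x hx h'
      funext i
      refine Fin.cases ?_ (fun j => ?_) i <;> rfl
    constructor
    · rintro ⟨⟨x, hx⟩, H⟩
      refine ⟨x, hx, fun h' => ?_⟩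
      rw [key x hx h'] at H
      exact H
    · rintro ⟨x, hx, H⟩
      have h' : ∀ i, Z V R ((Fin.cons x v : Fin (k + 1) → V) i) := by
        intro i
        refine Fin.cases ?_ (fun j => ?_) i
        · exact hx
        · exact h j
      refine ⟨⟨x, hx⟩, ?_⟩
      rw [key x hx h']
      exact H h'
  | @exSet k m φ ih =>
    have h1 : MF S ar k m (fun V R v X => ∃ Y : Set V, ∀ h : ∀ i, Z V R (v i),
        @Sat _ {x // Z V R x} (mkS (fun s u => ρ s V R (fun i => (u i).1))) k (m + 1) φ
        (fun i => ⟨v i, h i⟩) (fun j => {x | x.1 ∈ (Fin.cons Y X : Fin (m + 1) → Set V) j})) := by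
      refine MF.exS ?_
      refine ih.congr fun V R w X => ?_
      have e : (Fin.cons (X 0) (Fin.tail X) : Fin (m + 1) → Set V) = X := Fin.cons_self_tail X
      rw [e]
    refine ((hdom k m).imp h1).congr fun V R v X => ?_
    have key : ∀ (Y : Set V), (Fin.cons {x : {x // Z V R x} | x.1 ∈ Y}
        (fun j => {x : {x // Z V R x} | x.1 ∈ X j}) : Fin (m + 1) → Set {x // Z V R x}) =
        fun j => {x | x.1 ∈ (Fin.cons Y X : Fin (m + 1) → Set V) j} := by
      intro Y
      funext j
      refine Fin.cases ?_ (fun j => ?_) j <;> rfl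
    constructor
    · intro H h
      obtain ⟨Y, hY⟩ := H h
      refine ⟨Subtype.val '' Y, fun _ => ?_⟩
      rw [← key]
      have e : {x : {x // Z V R x} | x.1 ∈ Subtype.val '' Y} = Y := by
        ext x
        exact Subtype.val_injective.mem_set_image
      rw [e]
      exact hY
    · intro H h
      obtain ⟨Y, hY⟩ := H h
      refine ⟨{x | x.1 ∈ Y}, ?_⟩
      rw [key]
      exact hY h

end Pool.Agent.Helper20.MW
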