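import Pool.Agent.Helper20.MW.WildW
import Pool.Agent.Helper12.SS.AMain
import Pool.Agent.Helper38.DG.AdvTools

/-!
# Above an iterated logarithm: against advice
-/

set_option autoImplicit false

namespace Pool.Agent.Helper20.MW

open FirstOrder FirstOrder.Language Pool.Agent.Helper20.Spectra Pool.Agent.Helper29.Prefix
  Pool.Agent.Helper20.OP Pool.Agent.Helper29.TD Pool.Agent.Helper29.CW Filter
open Pool.Agent.Helper14.SS Pool.Agent.Helper12.SS
open Pool.Agent.Helper29.MW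
open Pool.Agent.Helper38.DG Pool.Agent.Helper38.DG.AdvT

/-! ### the sizes at `N` and `2 * N` -/

private lemma csz_one (i : ℕ) : csz i 1 = 1 := by
  cases i with
  | zero => rfl
  | succ i =>
    unfold csz
    rw [Nat.clog_of_right_le_one le_rfl, zero_mul, add_zero]

private lemma clog_two (k k' : ℕ) (h : k' ≤ 2 * k) :
    Nat.clog 2 k' ≤ Nat.clog 2 k + 1 := by
  have h1 : k ≤ 2 ^ Nat.clog 2 k := Nat.le_pow_clog (by norm_num) k
  apply Nat.clog_le_of_le_pow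
  rw [pow_succ]
  omega

private lemma csz_two (i : ℕ) : ∀ k k' : ℕ, 1 ≤ k → k' ≤ 2 * k → csz i k' ≤ 4 ^ i * csz i k := by
  induction i with
  | zero => intro k k' _ _; exact le_of_eq (by simp [csz])
  | succ i ih =>
    intro k k' hk h
    have h1 := clog_two k k' h
    rcases Nat.lt_or_ge k 2 with h2 | h2
    · have hk1 : k = 1 := by omega
      subst hk1
      have h3 : Nat.clog 2 1 = 0 := Nat.clog_of_right_le_one le_rfl 2
      have h4 : Nat.clog 2 k' ≤ 1 := by omega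
      have h5 : csz i (Nat.clog 2 k') ≤ 1 := (csz_mono i h4).trans (csz_one i).le
      have h6 : csz (i + 1) k' ≤ 2 := by
        unfold csz
        have := Nat.mul_le_mul h4 h5
        omega
      rw [csz_one, mul_one]
      have h7 : 4 ^ 1 ≤ 4 ^ (i + 1) := Nat.pow_le_pow_right (by norm_num) (by omega)
      omega
    · have h3 : 1 ≤ Nat.clog 2 k := by
        rw [Nat.one_le_iff_ne_zero]
        intro h0
        have h4 : k ≤ 2 ^ Nat.clog 2 k := Nat.le_pow_clog (by norm_num) k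
        rw [h0] at h4
        omega
      have h4 := ih (Nat.clog 2 k) (Nat.clog 2 k') h3 (by omega)
      have h5 : Nat.clog 2 k' ≤ 2 * Nat.clog 2 k := by omega
      have h6 := Nat.mul_le_mul h5 h4
      have h7 : 1 ≤ 4 ^ (i + 1) := Nat.one_le_pow _ _ (by norm_num)
      calc csz (i + 1) k' = 1 + Nat.clog 2 k' * csz i (Nat.clog 2 k') := rfl
        _ ≤ 4 ^ (i + 1) + 2 * Nat.clog 2 k * (4 ^ i * csz i (Nat.clog 2 k)) :=
            Nat.add_le_add h7 h6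
        _ ≤ 4 ^ (i + 1) + 4 * Nat.clog 2 k * (4 ^ i * csz i (Nat.clog 2 k)) := by
            apply Nat.add_le_add_left
            apply Nat.mul_le_mul_right
            omega
        _ = 4 ^ (i + 1) * (1 + Nat.clog 2 k * csz i (Nat.clog 2 k)) := by ring

lemma Fs_two (d N : ℕ) (hN : 1 ≤ N) : Fs d (2 * N) ≤ 2 ^ (2 * d + 3) * Fs d N := by
  have h1 := clog_iter_le d (2 * N)
  have h2 := csz_two d N (2 * N) hN le_rfl
  have h3 : N ≤ N ^ 2 := Nat.le_self_pow (by norm_num) N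
  have h4 : 1 ≤ 4 ^ d := Nat.one_le_pow _ _ (by norm_num)
  have h5 : (1 + 2 * csz d N) * N ^ 2 ≤ Fs d N := by unfold Fs; omega
  have h6 : N ^ 2 ≤ (1 + 2 * csz d N) * N ^ 2 := Nat.le_mul_of_pos_left _ (by omega)
  have h7 : 1 + 2 * csz d (2 * N) ≤ 4 ^ d * (1 + 2 * csz d N) := by
    calc 1 + 2 * csz d (2 * N) ≤ 4 ^ d + 2 * (4 ^ d * csz d N) := by omega
      _ = 4 ^ d * (1 + 2 * csz d N) := by ring
  have h8 : (2 : ℕ) ^ (2 * d + 3) = 8 * 4 ^ d := by
    rw [pow_add, pow_mul]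
    norm_num
    ring
  calc Fs d (2 * N) = (Nat.clog 2)^[d] (2 * N) + (1 + 2 * csz d (2 * N)) * (2 * N) ^ 2 := rfl
    _ ≤ 2 * N ^ 2 + 4 ^ d * (1 + 2 * csz d N) * (2 * N) ^ 2 :=
        Nat.add_le_add (by omega) (Nat.mul_le_mul_right _ h7)
    _ = 2 * N ^ 2 + 4 * 4 ^ d * ((1 + 2 * csz d N) * N ^ 2) := by ring
    _ ≤ 4 * 4 ^ d * Fs d N + 4 * 4 ^ d * Fs d N := by
        refine Nat.add_le_add ?_ (Nat.mul_le_mul_left _ h5)
        calc 2 * N ^ 2 ≤ 4 * 4 ^ d * N ^ 2 := Nat.mul_le_mul_right _ (by omega)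
          _ ≤ 4 * 4 ^ d * Fs d N := Nat.mul_le_mul_left _ (h6.trans h5)
    _ = 2 ^ (2 * d + 3) * Fs d N := by rw [h8]; ring

/-! ### reading off the runs, with advice -/

theorem redAdv {S₁ S₂ : Set ℕ} (h₁ : RudAdv S₁) (h₂ : RudAdv S₂) (F : ℕ → ℕ)
    (G T : ℕ → Prop) (p : Polynomial ℕ) (b : ℕ) (hgap : ∀ N, F N + N < F (N + 1))
    (hp : ∀ N, F N ≤ p.eval N) (hb : ∀ N, 1 ≤ N → F (2 * N) ≤ 2 ^ b * F N)
    (e₁ : ∀ n, n ∈ S₁ ↔ ∃ N m, G N ∧ m < N ∧ n = F N + m)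
    (e₂ : ∀ n, n ∈ S₂ ↔ ∃ N m, G N ∧ T N ∧ m < N ∧ n = F N + m) :
    RudAdv {N | 1 ≤ N ∧ G N ∧ T N} := by
  -- gaps
  have hF1 : ∀ N, F N ≤ F (N + 1) := fun N => by
    have := hgap N
    omega
  have hmono : Monotone F := monotone_nat_of_le_succ hF1
  have hlt : ∀ N N', N < N' → F N + N < F N' := by
    intro N N' h
    exact lt_of_lt_of_le (hgap N) (hmono h)
  have hend : ∀ N, F N + N ∉ S₁ := by
    intro N h
    obtain ⟨N', i, _, hi, he⟩ := (e₁ _).1 h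
    rcases lt_trichotomy N' N with h1 | h1 | h1
    · have := hlt N' N h1
      omega
    · subst h1
      omega
    · have := hlt N N' h1
      omega
  have hbef : ∀ N m', m' + 1 = F N → m' ∉ S₁ := by
    intro N m' hm' h
    obtain ⟨N', i, _, hi, he⟩ := (e₁ _).1 h
    rcases lt_or_ge N' N with h1 | h1
    · have := hlt N' N h1
      omega
    · have := hmono h1
      omega
  have hpos : ∀ N, 1 ≤ N → 1 ≤ F N := by
    intro N hN
    have := hlt 0 N hN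
    omega
  obtain ⟨E₁, c₁, hE₁, hW₁⟩ := advWin S₁ h₁ b
  obtain ⟨E₂, c₂, hE₂, hW₂⟩ := advWin S₂ h₂ b
  have hP : RP 3 1 (fun v w => 1 ≤ w 0 ∧ ∃ m, m ≤ p.eval (w 0) ∧ ((v 0 ≤ m ∧
      m + w 0 < 2 ^ (b + 1) * v 0) ∧ (m + v 2) ^ 2 + m ∈ E₂ ∧
      (∀ m', m' ≤ m → (v 0 ≤ m' → m' + 1 = m → (m' + v 1) ^ 2 + m' ∉ E₁)) ∧
      (∀ i, i ≤ w 0 → (i < w 0 → (m + i + v 1) ^ 2 + (m + i) ∈ E₁)) ∧
      (m + w 0 + v 1) ^ 2 + (m + w 0) ∉ E₁)) := by
    intro l s t hs ht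
    refine (RudX.le (Helper20.Spectra.IsPoly.const 1) (ht 0)).and' ?_
    refine RudX.ex (IsPoly.polyEval p (ht 0)) (P := fun _ z m => (s 0 z ≤ m ∧
      m + t 0 z < 2 ^ (b + 1) * s 0 z) ∧ (m + s 2 z) ^ 2 + m ∈ E₂ ∧
      (∀ m', m' ≤ m → (s 0 z ≤ m' → m' + 1 = m → (m' + s 1 z) ^ 2 + m' ∉ E₁)) ∧
      (∀ i, i ≤ t 0 z → (i < t 0 z → (m + i + s 1 z) ^ 2 + (m + i) ∈ E₁)) ∧
      (m + t 0 z + s 1 z) ^ 2 + (m + t 0 z) ∉ E₁) ?_
    have m0 : Helper20.Spectra.IsPoly (l + 1) (fun w => w 0) := Helper20.Spectra.IsPoly.var 0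
    have s0 := (hs 0).tail
    have s1 := (hs 1).tail
    have s2 := (hs 2).tail
    have t0 := (ht 0).tail
    refine RudX.and' ?_ (RudX.and' ?_ (RudX.and' ?_ (RudX.and' ?_ ?_)))
    · exact (RudX.le s0 m0).and' (RudX.lt (m0.add t0)
        ((Helper20.Spectra.IsPoly.const _).mul s0))
    · exact RudX.mem hE₂ (((m0.add s2).pow 2).add m0)
    · refine RudX.all m0 (P := fun _ w m' => s 0 (Fin.tail w) ≤ m' → m' + 1 = w 0 →
        (m' + s 1 (Fin.tail w)) ^ 2 + m' ∉ E₁) ?_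
      have v0 : Helper20.Spectra.IsPoly (l + 1 + 1) (fun w => w 0) :=
        Helper20.Spectra.IsPoly.var 0
      exact (RudX.le s0.tail v0).imp ((RudX.eq (v0.add (Helper20.Spectra.IsPoly.const 1))
        m0.tail).imp (RudX.mem hE₁ (((v0.add s1.tail).pow 2).add v0)).not')
    · refine RudX.all t0 (P := fun _ w i => i < t 0 (Fin.tail w) →
        (w 0 + i + s 1 (Fin.tail w)) ^ 2 + (w 0 + i) ∈ E₁) ?_
      have v0 : Helper20.Spectra.IsPoly (l + 1 + 1) (fun w => w 0) :=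
        Helper20.Spectra.IsPoly.var 0
      exact (RudX.lt v0 t0.tail).imp (RudX.mem hE₁ ((((m0.tail.add v0).add s1.tail).pow 2).add
        (m0.tail.add v0)))
    · exact (RudX.mem hE₁ ((((m0.add t0).add s1).pow 2).add (m0.add t0))).not'
  have h1 := RP.decode 3 1 _ hP 2 (fun z => z 1) (fun _ z => z 0)
    (Helper20.Spectra.IsPoly.var 1) (fun _ => Helper20.Spectra.IsPoly.var 0)
  obtain ⟨E', hE', h'⟩ := exists_pair (P := fun n a => ∃ v : Fin 3 → ℕ, code 3 v = a ∧ (1 ≤ n ∧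
      ∃ m, m ≤ p.eval n ∧ ((v 0 ≤ m ∧
      m + n < 2 ^ (b + 1) * v 0) ∧ (m + v 2) ^ 2 + m ∈ E₂ ∧
      (∀ m', m' ≤ m → (v 0 ≤ m' → m' + 1 = m → (m' + v 1) ^ 2 + m' ∉ E₁)) ∧
      (∀ i, i ≤ n → (i < n → (m + i + v 1) ^ 2 + (m + i) ∈ E₁)) ∧
      (m + n + v 1) ^ 2 + (m + n) ∉ E₁))) h1
  obtain ⟨c', hc'⟩ := code_bound ((p.eval 1 + p.natDegree + 1) * (c₁ + c₂ + 1)) 3
  refine ⟨E', c', hE', fun N hN => ?_⟩
  obtain ⟨a₁, ha₁, hv₁⟩ := hW₁ (F N) (hpos N hN)
  obtain ⟨a₂, ha₂, hv₂⟩ := hW₂ (F N) (hpos N hN)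
  have hFN : F N + 1 ≤ (N + 1) ^ (p.eval 1 + p.natDegree + 1) := by
    have h3 := eval_le p hN
    have h4 := hp N
    calc F N + 1 ≤ p.eval 1 * N ^ p.natDegree + 1 := by omega
      _ ≤ p.eval 1 * (N + 1) ^ p.natDegree + (N + 1) ^ p.natDegree :=
          Nat.add_le_add (Nat.mul_le_mul_left _ (Nat.pow_le_pow_left (by omega) _))
            (Nat.one_le_pow _ _ (by omega))
      _ = (p.eval 1 + 1) * (N + 1) ^ p.natDegree := by ring
      _ ≤ 2 ^ (p.eval 1 + 1) * (N + 1) ^ p.natDegree :=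
          Nat.mul_le_mul_right _ Nat.lt_two_pow_self.le
      _ ≤ (N + 1) ^ (p.eval 1 + 1) * (N + 1) ^ p.natDegree :=
          Nat.mul_le_mul_right _ (Nat.pow_le_pow_left (by omega) _)
      _ = (N + 1) ^ (p.eval 1 + p.natDegree + 1) := by rw [← pow_add]; ring_nf
  have hpw : ∀ c, c ≤ c₁ + c₂ + 1 → (F N + 1) ^ c ≤
      (N + 1) ^ ((p.eval 1 + p.natDegree + 1) * (c₁ + c₂ + 1)) := by
    intro c hc
    calc (F N + 1) ^ c ≤ (F N + 1) ^ (c₁ + c₂ + 1) := Nat.pow_le_pow_right (by omega) hc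
      _ ≤ ((N + 1) ^ (p.eval 1 + p.natDegree + 1)) ^ (c₁ + c₂ + 1) := Nat.pow_le_pow_left hFN _
      _ = _ := by rw [← pow_mul]
  refine ⟨code 3 ![F N, a₁, a₂], ?_, fun n hn1 hn2 => ?_⟩
  · refine hc' (N + 1) (by omega) _ (fun i => ?_)
    fin_cases i
    · show F N ≤ _
      have := hpw 1 (by omega)
      rw [pow_one] at this
      omega
    · exact ha₁.trans (hpw c₁ (by omega))
    · exact ha₂.trans (hpw c₂ (by omega))
  · rw [h']
    have hn : 1 ≤ n := by omega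
    have hF2 : F (2 * N) < 2 ^ (b + 1) * F N := by
      have h3 := hb N hN
      have h4 := hpos N hN
      have h5 : 0 < 2 ^ b * F N := Nat.mul_pos (by positivity) h4
      rw [pow_succ]
      calc F (2 * N) < 2 ^ b * F N + 2 ^ b * F N := by omega
        _ = 2 ^ b * 2 * F N := by ring
    constructor
    · rintro ⟨-, hG, hT⟩
      have hup : F n + n < 2 ^ (b + 1) * F N :=
        (hgap n).trans_le ((hmono (by omega)).trans hF2.le)
      have hlow : F N ≤ F n := hmono hn1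
      have hin₁ : ∀ x, F N ≤ x → x ≤ F n + n → (x ∈ S₁ ↔ (x + a₁) ^ 2 + x ∈ E₁) :=
        fun x hx hx' => hv₁ x hx (by omega)
      refine ⟨_, rfl, hn, F n, hp n, ⟨hlow, hup⟩, ?_, ?_, ?_, ?_⟩
      · exact (hv₂ (F n) hlow (by omega)).1 ((e₂ _).2 ⟨n, 0, hG, hT, hn, rfl⟩)
      · intro m' _ hm1 hm2 hm3
        exact hbef n m' hm2 ((hin₁ m' hm1 (by omega)).2 hm3)
      · intro i _ hi
        exact (hin₁ (F n + i) (by omega) (by omega)).1 ((e₁ _).2 ⟨n, i, hG, hi, rfl⟩)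
      · intro h3
        exact hend n ((hin₁ (F n + n) (by omega) le_rfl).2 h3)
    · rintro ⟨v, hv, -, m, -, ⟨hm1, hm2⟩, hm3, hm4, hm5, hm6⟩
      have hv' := code_inj _ _ _ hv
      subst hv'
      have hm1' : F N ≤ m := hm1
      have hm2' : m + n < 2 ^ (b + 1) * F N := hm2
      have hin₁ : ∀ x, F N ≤ x → x ≤ m + n → (x ∈ S₁ ↔ (x + a₁) ^ 2 + x ∈ E₁) :=
        fun x hx hx' => hv₁ x hx (by omega)
      have hmS : m ∈ S₂ := (hv₂ m hm1' (by omega)).2 hm3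
      have hm4' : ∀ m', F N ≤ m' → m' + 1 = m → m' ∉ S₁ := by
        intro m' h3 h4 h5
        exact hm4 m' (by omega) h3 h4 ((hin₁ m' h3 (by omega)).1 h5)
      have hm5' : ∀ i, i < n → m + i ∈ S₁ := by
        intro i hi
        exact (hin₁ (m + i) (by omega) (by omega)).2 (hm5 i hi.le hi)
      have hm6' : m + n ∉ S₁ := by
        intro h3
        exact hm6 ((hin₁ (m + n) (by omega) le_rfl).1 h3)
      obtain ⟨N', i, hG, hT, hi, he⟩ := (e₂ _).1 hmS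
      have hi0 : i = 0 := by
        by_contra h0
        have hge : F N ≤ m - 1 := by
          by_contra h3
          have h4 : m = F N := by omega
          rcases lt_trichotomy N' N with h5 | h5 | h5
          · have := hlt N' N h5
            omega
          · subst h5
            omega
          · have := hlt N N' h5
            omega
        exact hm4' (m - 1) hge (by omega) ((e₁ _).2 ⟨N', i - 1, hG, by omega, by omega⟩)
      subst hi0
      rcases lt_trichotomy N' n with h3 | h3 | h3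
      · exfalso
        have h4 := hm5' N' h3
        rw [he, add_zero] at h4
        exact hend N' h4
      · subst h3
        exact ⟨hn, hG, hT⟩
      · exfalso
        exact hm6' ((e₁ _).2 ⟨N', n, hG, h3, by omega⟩)

theorem advEventually {A B : Set ℕ} (hA : RudAdv A) (N1 : ℕ)
    (h : ∀ n, N1 ≤ n → (n ∈ A ↔ n ∈ B)) : RudAdv B := advFin A B N1 hA h

/-- **The wild case, against advice.** -/
theorem mwidth_wildAdv (μ : Width) (w : ℕ → ℕ) (hw : ∃ d, ∀ᶠ n in atTop, n ≤ E d (w n)) :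
    ∃ A : Set ℕ, MWidthSpectrum μ w A ∧ ¬ RudAdv A := by
  by_contra hcon
  push Not at hcon
  obtain ⟨d0, c0, h2, hthr⟩ := thr_pred hw
  obtain ⟨N1, hN1⟩ := le_clog_iter (d0 + 2) c0
  have hFO : ∀ {Γ : Type} [Finite Γ] (W : Wang Γ),
      MWidthSpectrum μ w (Sizes (d0 + 2) c0 W) := by
    intro Γ _ W
    obtain ⟨S, hS, ar, φ, har, h3, h4⟩ := short2_sizes (w := fun n => w n - 1) h2 hthr W
    exact mwidth_fo ⟨S, hS, ar, φ, fun _ => har,
      fun n I hn hI => widthLe_of_pathLe har hn μ (h3 n I hn hI), h4⟩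
  have hbnd : ∀ N, Fs (d0 + 2) N ≤
      (Polynomial.X + (1 + 2 * (Polynomial.X + 1) ^ (d0 + 2)) * Polynomial.X ^ 2 :
        Polynomial ℕ).eval N := by
    intro N
    have := Fs_le (d0 + 2) N
    simpa using this
  have hQ : ∀ A : Set ℕ, IsSpectrum A → RudAdv A := by
    intro A hA
    obtain ⟨Θ₀, hΘ₀⟩ := exists_universal_two
    obtain ⟨g, hg2, hg⟩ := hΘ₀ A hA
    have hred := redAdv (hcon _ (hFO triv)) (hcon _ (hFO (blockWang Θ₀))) (Fs (d0 + 2))
      (fun N => c0 ≤ (Nat.clog 2)^[d0 + 2] N) (fun N => Tiles (blockWang Θ₀) N) _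
      (2 * (d0 + 2) + 3) (Fs_gap (d0 + 2)) hbnd (Fs_two (d0 + 2))
      (fun n => by
        constructor
        · rintro ⟨N, m, h3, -, h5, h6⟩
          exact ⟨N, m, h3, h5, h6⟩
        · rintro ⟨N, m, h3, h5, h6⟩
          exact ⟨N, m, h3, tiles_triv N, h5, h6⟩)
      (fun n => Iff.rfl)
    have hsq : RudAdv (squareSizes Θ₀) := by
      refine advEventually hred (N1 + 1) (fun n hn => ?_)
      rw [mem_squareSizes_iff Θ₀ (by omega)]
      constructor
      · rintro ⟨-, -, h⟩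
        exact h
      · intro h
        exact ⟨by omega, hN1 n (by omega), h⟩
    rw [hg]
    exact advPre _ g hsq
  obtain ⟨φ, hφ⟩ := smallSetsAdv.2 hQ
  apply hφ id monotone_id (fun b => ⟨b + 1, Nat.lt_succ_self b⟩)
  have hred := redAdv (hcon _ (mwidth_sizes (μ := μ) h2 hthr (.fo ⊤)))
    (hcon _ (mwidth_sizes (μ := μ) h2 hthr φ)) (Fs (d0 + 2))
    (fun N => c0 ≤ (Nat.clog 2)^[d0 + 2] N) (fun N => ArTrue φ N) _
    (2 * (d0 + 2) + 3) (Fs_gap (d0 + 2)) hbnd (Fs_two (d0 + 2))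
    (fun n => by
      constructor
      · rintro ⟨N, m, h3, -, h5, h6⟩
        exact ⟨N, m, h3, h5, h6⟩
      · rintro ⟨N, m, h3, h5, h6⟩
        exact ⟨N, m, h3, arTrue_top N, h5, h6⟩)
    (fun n => Iff.rfl)
  refine advEventually hred (N1 + 1) (fun n hn => ?_)
  have e : n ∈ arithS id φ ↔ 1 ≤ n ∧ ArTrue φ n := and_congr Iff.rfl (arTrue_iff φ n)
  rw [e]
  constructor
  · rintro ⟨h3, -, h4⟩
    exact ⟨h3, h4⟩
  · rintro ⟨h3, h4⟩
    exact ⟨h3, hN1 n (by omega), h4⟩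

end Pool.Agent.Helper20.MW
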