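import Pool.Agent.Helper20.MW.Cl
import Pool.Agent.Helper20.MW.CellGrid
import Pool.Agent.Helper29.CW.All
import Pool.Agent.Helper14.SS.Main

/-!
# Above an iterated logarithm the monadic second-order width spectra are not all rudimentary
-/

set_option autoImplicit false

namespace Pool.Agent.Helper20.MW

open FirstOrder FirstOrder.Language Pool.Agent.Helper20.Spectra Pool.Agent.Helper29.Prefix
  Pool.Agent.Helper20.OP Pool.Agent.Helper29.TD Pool.Agent.Helper29.CW Filter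
open Pool.Agent.Helper20.EX2 (gh gu MDef MD RowSat md_rowSat rowSat_grid)
open Pool.Agent.Helper14.SS
open Pool.Agent.Helper29.MW

/-- the first-order definable conditions on `St` -/
lemma MF.ofDef {Γ : Type} {r m : ℕ} {P : ∀ V : Type, St Γ V → (Fin r → V) → Prop}
    (h : Pool.Agent.Helper29.TD.Def Γ r P) :
    MF (Sy Γ) Sy.ar r m (fun V I v _ => P V (St.ofI I) v) := by
  obtain ⟨φ, hφ⟩ := h
  refine (MF.fo φ).congr fun V I v X => ?_
  have h1 := hφ V (St.ofI I) v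
  rw [St.toI_ofI] at h1
  exact h1.symm

/-- the grid of the cells -/
def cellStr {Γ V : Type} (d : ℕ) (R : St Γ V) : Str 2 {c // R.cell c} :=
  fun j x y => if j = 0 then CH d R x.1 y.1 else CU d R x.1 y.1

/-- `({0, ..., n - 1}, +, ·)` satisfies `φ` -/
def ArTrue (φ : SFm ArL 0 0) (n : ℕ) : Prop :=
  @Pool.Agent.Helper20.EX2.Sat ArL (Fin n) (mkS (arI n)) 0 0 φ Fin.elim0 Fin.elim0

lemma arTrue_top (n : ℕ) : ArTrue (.fo ⊤) n := by
  let _ : ArL.Structure (Fin n) := mkS (arI n)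
  show (⊤ : ArL.Formula (Fin 0)).Realize (Fin.elim0 : Fin 0 → Fin n)
  exact BoundedFormula.realize_top.2 trivial

lemma arTrue_iff (φ : SFm ArL 0 0) (n : ℕ) :
    @SFm.Holds ArL (Fin n) (mkS (arI n)) n 0 0 φ Fin.elim0 Fin.elim0 ↔ ArTrue φ n := by
  let _ : ArL.Structure (Fin n) := mkS (arI n)
  refine (Pool.Agent.Helper20.EX2.holds_iff_sat (by simp) φ Fin.elim0 Fin.elim0).trans ?_
  have e : (fun j : Fin 0 => (((Fin.elim0 : Fin 0 → Finset (Fin n)) j : Finset (Fin n)) :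
      Set (Fin n))) = Fin.elim0 := funext fun j => j.elim0
  rw [e]
  exact Iff.rfl

/-- the conditions -/
def MCond {Γ : Type} (d c0 : ℕ) (W : Wang Γ) (φ : SFm ArL 0 0) {V : Type} (R : St Γ V) : Prop :=
  Cond d c0 W R ∧ RowSat (cellStr d R 0) (cellStr d R 1) φ

lemma mf_mcond {Γ : Type} [Finite Γ] (d c0 : ℕ) (W : Wang Γ) (φ : SFm ArL 0 0) :
    MF (Sy Γ) Sy.ar 0 0 (fun V I _ _ => MCond d c0 W φ (St.ofI I)) := by
  have hZ : MF (Sy Γ) Sy.ar 1 0 (fun V I v _ => (St.ofI I).cell (v 0)) :=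
    MF.ofDef (P := fun V R v => R.cell (v 0)) (Def.cell 0)
  have hρ : ∀ j : Fin 2, MF (Sy Γ) Sy.ar 2 0 (fun V I v _ =>
      if j = 0 then CH d (St.ofI I) (v 0) (v 1) else CU d (St.ofI I) (v 0) (v 1)) := by
    intro j
    by_cases hj : j = 0
    · refine (MF.ofDef (P := fun V R v => CH d R (v 0) (v 1)) (def_CH d)).congr fun V I v X => ?_
      rw [if_pos hj]
    · refine (MF.ofDef (P := fun V R v => CU d R (v 0) (v 1)) (def_CU d)).congr fun V I v X => ?_
      rw [if_neg hj]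
  obtain ⟨χ, hχ⟩ := md_rowSat (0 : Fin 2) 1 φ
  have h1 := MF.relat (ar' := fun _ : Fin 2 => 2) (Z := fun V I x => (St.ofI I).cell x) hZ
    (ρ := fun j V I v => if j = 0 then CH d (St.ofI I) (v 0) (v 1) else
      CU d (St.ofI I) (v 0) (v 1)) hρ (k := 0) (m := 0) χ
  have h2 : MF (Sy Γ) Sy.ar 0 0 (fun V I _ _ => Cond d c0 W (St.ofI I)) :=
    MF.ofDef (P := fun V R _ => Cond d c0 W R) (def_cond d c0 W)
  refine (h2.and h1).congr fun V I v X => and_congr Iff.rfl ?_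
  have h3 := fun (v' : Fin 0 → {c // (St.ofI I).cell c}) (X' : Fin 0 → Set {c // (St.ofI I).cell c})
    => hχ {c // (St.ofI I).cell c} (cellStr d (St.ofI I)) v' X'
  constructor
  · intro h4 h5
    exact (h3 _ _).2 h4
  · intro h4
    exact (h3 _ _).1 (h4 (fun i => i.elim0))

theorem MCond.decode {Γ V : Type} [Finite V] {d c0 : ℕ} {W : Wang Γ} {φ : SFm ArL 0 0} {R : St Γ V}
    (h : Cond d c0 W R) (hc : 2 ≤ c0) :
    ∃ N m, c0 ≤ (Nat.clog 2)^[d] N ∧ (Nat.clog 2)^[d] N = Nat.card {a // R.apex a} ∧ m < N ∧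
      Nat.card V = Fs d N + m ∧ (RowSat (cellStr d R 0) (cellStr d R 1) φ ↔ ArTrue φ N) := by
  obtain ⟨N, m, h1, h2, h3, h4, e, h5, h6⟩ := Cond.grid h hc
  refine ⟨N, m, h1, h2, h3, h4, ?_⟩
  unfold ArTrue
  rw [← rowSat_grid]
  have h7 := MDef.iso0 (md_rowSat (0 : Fin 2) 1 φ) e (cellStr d R)
  rw [h7]
  have e1 : (fun x y => cellStr d R 0 (e.symm x) (e.symm y)) = gh N := by
    funext x y
    have := h5 (e.symm x) (e.symm y)
    rw [e.apply_symm_apply, e.apply_symm_apply] at this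
    exact propext this
  have e2 : (fun x y => cellStr d R 1 (e.symm x) (e.symm y)) = gu N := by
    funext x y
    have := h6 (e.symm x) (e.symm y)
    rw [e.apply_symm_apply, e.apply_symm_apply] at this
    exact propext this
  show RowSat (fun x y => cellStr d R 0 (e.symm x) (e.symm y))
    (fun x y => cellStr d R 1 (e.symm x) (e.symm y)) φ ↔ _
  rw [e1, e2]

/-- the sizes -/
def SizesM (d c0 : ℕ) (φ : SFm ArL 0 0) : Set ℕ :=
  {n | ∃ N m, c0 ≤ (Nat.clog 2)^[d] N ∧ ArTrue φ N ∧ m < N ∧ n = Fs d N + m}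

/-- monadic second-order truth is invariant under isomorphisms -/
lemma MFm.iso {S : Type} {ar : S → ℕ} {V W : Type} (I : Interp S ar V) (e : V ≃ W) {k m : ℕ}
    (φ : MFm S ar k m) : ∀ (v : Fin k → V) (X : Fin m → Set V),
      φ.Holds I v X ↔ φ.Holds (fun s u => I s (fun i => e.symm (u i)) : Interp S ar W)
        (fun i => e (v i)) (fun j => e '' X j) := by
  induction φ with
  | eq i j => exact fun v X => e.injective.eq_iff.symm
  | rel s f =>
    intro v X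
    show I s (fun i => v (f i)) ↔ I s (fun i => e.symm (e (v (f i))))
    simp only [e.symm_apply_apply]
  | mem i j =>
    intro v X
    show v i ∈ X j ↔ e (v i) ∈ e '' X j
    rw [e.injective.mem_set_image]
  | not φ ih => exact fun v X => not_congr (ih v X)
  | and φ ψ ih ih' => exact fun v X => and_congr (ih v X) (ih' v X)
  | ex φ ih =>
    intro v X
    have h : ∀ x : V, (fun i => e ((Fin.cons x v : Fin (_ + 1) → V) i)) =
        Fin.cons (e x) (fun i => e (v i)) := by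
      intro x
      funext i
      refine Fin.cases ?_ (fun i => ?_) i <;> rfl
    constructor
    · rintro ⟨x, hx⟩
      refine ⟨e x, ?_⟩
      rw [← h]
      exact (ih _ _).1 hx
    · rintro ⟨y, hy⟩
      obtain ⟨x, rfl⟩ := e.surjective y
      refine ⟨x, (ih _ _).2 ?_⟩
      rw [h]
      exact hy
  | exSet φ ih =>
    intro v X
    have h : ∀ Y : Set V, (fun j => e '' ((Fin.cons Y X : Fin (_ + 1) → Set V) j)) =
        Fin.cons (e '' Y) (fun j => e '' X j) := by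
      intro Y
      funext j
      refine Fin.cases ?_ (fun j => ?_) j <;> rfl
    constructor
    · rintro ⟨Y, hY⟩
      refine ⟨e '' Y, ?_⟩
      rw [← h]
      exact (ih _ _).1 hY
    · rintro ⟨Y, hY⟩
      refine ⟨e.symm '' Y, (ih _ _).2 ?_⟩
      rw [h]
      have : e '' (e.symm '' Y) = Y := by
        rw [← Set.image_comp]
        simp
      rw [this]
      exact hY

lemma MSat_iso {S : Type} {ar : S → ℕ} {V W : Type} (I : Interp S ar V) (e : V ≃ W)
    (φ : MFm S ar 0 0) :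
    MSat I φ ↔ MSat (fun s u => I s (fun i => e.symm (u i)) : Interp S ar W) φ := by
  refine (MFm.iso I e φ Fin.elim0 Fin.elim0).trans ?_
  have e1 : (fun i : Fin 0 => e ((Fin.elim0 : Fin 0 → V) i)) = Fin.elim0 := funext fun i => i.elim0
  have e2 : (fun j : Fin 0 => e '' ((Fin.elim0 : Fin 0 → Set V) j)) = Fin.elim0 :=
    funext fun i => i.elim0
  rw [e1, e2]
  exact Iff.rfl

theorem msizes {w : ℕ → ℕ} {d0 c0 : ℕ} (h2 : 2 ≤ c0)
    (hthr : ∀ N n : ℕ, c0 ≤ (Nat.clog 2)^[d0 + 2] N → (Nat.clog 2)^[d0 + 2] N ≤ n → N ≤ n →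
      ((Nat.clog 2)^[d0 + 2] N + 1) * (2 * (d0 + 2 + 3) + 1) ≤ w n) (φ : SFm ArL 0 0) :
    ∃ ψ : MFm (Sy Unit) Sy.ar 0 0,
      (∀ (n : ℕ) (I : Interp (Sy Unit) Sy.ar (Fin n)), 1 ≤ n → MSat I ψ → PathLe I (w n)) ∧
      ∀ n : ℕ, n ∈ SizesM (d0 + 2) c0 φ ↔
        (1 ≤ n ∧ ∃ I : Interp (Sy Unit) Sy.ar (Fin n), MSat I ψ) := by
  obtain ⟨ψ, hψ⟩ := mf_mcond (d0 + 2) c0 triv φ
  have hψ' : ∀ (V : Type) (I : Interp (Sy Unit) Sy.ar V),
      MSat I ψ ↔ MCond (d0 + 2) c0 triv φ (St.ofI I) := fun V I => hψ V I Fin.elim0 Fin.elim0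
  refine ⟨ψ, ?_, ?_⟩
  · intro n I hn hI
    have hC := ((hψ' _ _).1 hI).1
    obtain ⟨N, m, h3, h4, h5, h6, -⟩ := MCond.decode (φ := φ) hC h2
    have h7 := hC.1.pathLe
    rw [St.toI_ofI, ← h4] at h7
    rw [Nat.card_fin] at h6
    have h8 := le_Fs (d0 + 2) N
    refine h7.mono (hthr N n h3 ?_ (by omega))
    rw [h4]
    have := Finite.card_subtype_le (fun a => (St.ofI I).apex a)
    rwa [Nat.card_fin] at this
  · intro n
    constructor
    · rintro ⟨N, m, h3, h4, h5, rfl⟩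
      obtain ⟨V, hV, R, hR, hc⟩ := encode triv h2 h3 h5 (tiles_triv N)
      have h8 := le_Fs (d0 + 2) N
      refine ⟨by omega, ?_⟩
      obtain ⟨N', m', h3', -, h5', h6', h7'⟩ := MCond.decode (φ := φ) hR h2
      have hN : N' = N := by
        rcases lt_trichotomy N' N with h9 | h9 | h9
        · exfalso
          have h10 : Fs (d0 + 2) (N' + 1) ≤ Fs (d0 + 2) N :=
            monotone_nat_of_le_succ (fun k => by have := Fs_gap (d0 + 2) k; omega) h9
          have h11 := Fs_gap (d0 + 2) N'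
          omega
        · exact h9
        · exfalso
          have h10 : Fs (d0 + 2) (N + 1) ≤ Fs (d0 + 2) N' :=
            monotone_nat_of_le_succ (fun k => by have := Fs_gap (d0 + 2) k; omega) h9
          have h11 := Fs_gap (d0 + 2) N
          omega
      rw [hN] at h7'
      let e : V ≃ Fin (Fs (d0 + 2) N + m) := (Finite.equivFin V).trans (finCongr hc)
      refine ⟨_, (MSat_iso R.toI e ψ).1 ((hψ' _ _).2 ?_)⟩
      have h12 : St.ofI R.toI = R := rfl
      rw [h12]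
      exact ⟨hR, h7'.2 h4⟩
    · rintro ⟨hn, I, hI⟩
      have hC := (hψ' _ _).1 hI
      obtain ⟨N, m, h3, h4, h5, h6, h7⟩ := MCond.decode (φ := φ) hC.1 h2
      rw [Nat.card_fin] at h6
      exact ⟨N, m, h3, h7.1 hC.2, h5, h6⟩

/-- small path length gives small width -/
lemma widthLe_of_pathLe {S : Type} {ar : S → ℕ} (har : ∀ s, ar s ≤ 2) {n : ℕ} (hn : 1 ≤ n)
    {I : Interp S ar (Fin n)} (μ : Width) {t : ℕ} (hp : PathLe I (t - 1)) : WidthLe μ I t := by
  classical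
  have : Nonempty (Fin n) := ⟨⟨0, hn⟩⟩
  have h3 : 1 ≤ t - 1 := by
    refine hp 1 (fun _ => ⟨0, hn⟩) ⟨fun a b _ => Subsingleton.elim a b, fun i j hij => ?_⟩
    have := i.2
    have := j.2
    omega
  cases μ with
  | path => exact hp.mono (by omega)
  | tree =>
    obtain ⟨C, hC⟩ := Pool.Agent.Helper29.TW.dec_of_pathLe hp
    exact Pool.Agent.Helper29.TW.TreeDec.mono (by omega) hC.treeDec
  | clique =>
    have h4 := cwLe_of_pathLe har hp
    rwa [show t - 1 + 1 = t by omega] at h4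

/-- first-order width spectra are monadic second-order width spectra -/
lemma mwidth_fo {μ : Width} {w : ℕ → ℕ} {A : Set ℕ} (hA : WidthSpectrum μ w A) :
    MWidthSpectrum μ w A := by
  obtain ⟨S, hS, ar, φ, h0, h1, h2⟩ := hA
  obtain ⟨ψ, hψ⟩ := MF.fo (m := 0) φ
  have hψ' : ∀ (V : Type) (I : Interp S ar V),
      MSat I ψ ↔ Pool.Agent.Helper29.TD.Sat I φ := by
    intro V I
    refine (hψ V I Fin.elim0 Fin.elim0).trans ?_
    have e : (Fin.elim0 : Fin 0 → V) = default := Subsingleton.elim _ _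
    rw [e]
    exact Iff.rfl
  refine ⟨S, hS, ar, ψ, h0, fun n I hn hI => h1 n I hn ((hψ' _ _).1 hI), fun n => ?_⟩
  rw [h2 n]
  exact and_congr_right fun _ => exists_congr fun I => (hψ' _ _).symm

/-- the sets of sizes are width spectra -/
lemma mwidth_sizes {μ : Width} {w : ℕ → ℕ} {d0 c0 : ℕ} (h2 : 2 ≤ c0)
    (hthr : ∀ N n : ℕ, c0 ≤ (Nat.clog 2)^[d0 + 2] N → (Nat.clog 2)^[d0 + 2] N ≤ n → N ≤ n →
      ((Nat.clog 2)^[d0 + 2] N + 1) * (2 * (d0 + 2 + 3) + 1) ≤ w n - 1) (φ : SFm ArL 0 0) :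
    MWidthSpectrum μ w (SizesM (d0 + 2) c0 φ) := by
  have har : ∀ s : Sy Unit, Sy.ar s ≤ 2 := by
    intro s
    cases s <;> simp [Sy.ar]
  obtain ⟨ψ, h3, h4⟩ := msizes (w := fun n => w n - 1) h2 hthr φ
  exact ⟨Sy Unit, inferInstance, Sy.ar, ψ, fun _ => har,
    fun n I hn hI => widthLe_of_pathLe har hn μ (h3 n I hn hI), h4⟩

lemma thr_pred {w : ℕ → ℕ} (hw : ∃ d, ∀ᶠ n in atTop, n ≤ E d (w n)) :
    ∃ d0 c0, 2 ≤ c0 ∧ ∀ N n : ℕ, c0 ≤ (Nat.clog 2)^[d0 + 2] N → (Nat.clog 2)^[d0 + 2] N ≤ n → N ≤ n →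
      ((Nat.clog 2)^[d0 + 2] N + 1) * (2 * (d0 + 2 + 3) + 1) ≤ w n - 1 := by
  obtain ⟨d1, hd1⟩ := hw
  have hd2 : ∀ᶠ n in atTop, n ≤ E (d1 + 1) (w n - 1) := by
    filter_upwards [hd1] with n hn
    refine hn.trans ?_
    rw [← E_two_pow]
    refine E_mono d1 ?_
    rcases Nat.eq_zero_or_pos (w n) with h | h
    · rw [h]; exact Nat.zero_le _
    · have h5 : w n - 1 < 2 ^ (w n - 1) := Nat.lt_two_pow_self
      omega
  obtain ⟨c0, h2, hthr⟩ := thr (fun n => w n - 1) (d1 + 1) hd2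
  exact ⟨d1 + 1, c0, h2, hthr⟩

/-- **The wild case.** -/
theorem mwidth_wild (μ : Width) (w : ℕ → ℕ) (hw : ∃ d, ∀ᶠ n in atTop, n ≤ E d (w n)) :
    ∃ A : Set ℕ, MWidthSpectrum μ w A ∧ ¬ IsRudimentary A := by
  by_contra hcon
  push Not at hcon
  have hFO : ∀ A : Set ℕ, WidthSpectrum μ w A → IsRudimentary A :=
    fun A hA => hcon A (mwidth_fo hA)
  have hQ := ((width_threshold μ w).1 hw).1 hFO
  obtain ⟨D, ⟨φ, hD⟩, hDr⟩ := diag trans_all id monotone_id (fun b => ⟨b, le_rfl⟩)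
    (fun A hA => ((hQ A).1 hA).1)
  obtain ⟨d0, c0, h2, hthr⟩ := thr_pred hw
  have hS₁ := hcon _ (mwidth_sizes (μ := μ) h2 hthr (.fo ⊤))
  have hS₂ := hcon _ (mwidth_sizes (μ := μ) h2 hthr φ)
  have hred := red hS₁ hS₂ (Fs (d0 + 2)) (fun N => c0 ≤ (Nat.clog 2)^[d0 + 2] N)
    (fun N => ArTrue φ N)
    (Polynomial.X + (1 + 2 * (Polynomial.X + 1) ^ (d0 + 2)) * Polynomial.X ^ 2)
    (Fs_gap (d0 + 2)) (fun N => by
      have := Fs_le (d0 + 2) N
      simpa using this)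
    (fun n => by
      constructor
      · rintro ⟨N, m, h3, -, h5, h6⟩
        exact ⟨N, m, h3, h5, h6⟩
      · rintro ⟨N, m, h3, h5, h6⟩
        exact ⟨N, m, h3, arTrue_top N, h5, h6⟩)
    (fun n => Iff.rfl)
  obtain ⟨N1, hN1⟩ := le_clog_iter (d0 + 2) c0
  apply hDr
  refine rud_of_eventually hred (N1 + 1) (fun n hn => ?_)
  have e : n ∈ D ↔ 1 ≤ n ∧ ArTrue φ n := by
    rw [hD]
    exact and_congr Iff.rfl (arTrue_iff φ n)
  rw [e]
  constructor
  · rintro ⟨h3, -, h4⟩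
    exact ⟨h3, h4⟩
  · rintro ⟨h3, h4⟩
    exact ⟨h3, hN1 n (by omega), h4⟩

end Pool.Agent.Helper20.MW
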